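import Mathlib

/-!
# General definitions: closure spaces of semilattice type: definitions of the statement
-/

set_option linter.unusedSimpArgs false

set_option linter.style.longLine false

namespace Pool.H1.MV.Counterexample

section Defs

variable {P : Type}

/-- The poset (under inclusion) of clopen sets: sets `a` such that `a` and its complement are both
closed, i.e. fixed by the closure operator. -/
def Clop (φ : ClosureOperator (Set P)) : Set (Set P) := {a | φ a = a ∧ φ aᶜ = aᶜ}

/-- The interior of a set: complement of the closure of the complement. -/
def interior (φ : ClosureOperator (Set P)) (a : Set P) : Set P := (φ aᶜ)ᶜ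

/-- The poset (under inclusion) of regular closed sets: sets equal to the closure of their
interior. -/
def Reg (φ : ClosureOperator (Set P)) : Set (Set P) := {a | a = φ (interior φ a)}

/-- The closure operator is algebraic: the closure of `x` is the union of the closures of the
finite subsets of `x`. -/
def IsAlgebraic (φ : ClosureOperator (Set P)) : Prop :=
  ∀ x : Set P, φ x = ⋃ y ∈ {y : Set P | y ⊆ x ∧ y.Finite}, φ y

/-- `x` is a minimal covering of `p`: `x` is inclusion-minimal among sets whose closure contains
`p`. -/
def IsMinCovering (φ : ClosureOperator (Set P)) (x : Set P) (p : P) : Prop :=
  Minimal (fun y : Set P => p ∈ φ y) x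

/-- `(P, φ)` is a closure space of semilattice type: the closure of the empty set is empty, `φ` is
algebraic, and there is a partial order on `P` such that every minimal covering `x` of a point `p`
has `p` as its join (least upper bound). -/
def IsSemilatticeType (φ : ClosureOperator (Set P)) : Prop :=
  φ ∅ = ∅ ∧ IsAlgebraic φ ∧
    ∃ ord : PartialOrder P, ∀ (x : Set P) (p : P), IsMinCovering φ x p →
      @IsLUB P ord.toLE x p

/-- A family of sets, ordered by inclusion, is a lattice: any two members have a least upper bound
and a greatest lower bound inside the family. -/
def IsLatticeFamily (F : Set (Set P)) : Prop :=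
  ∀ a b : F, (∃ c : F, IsLUB {a, b} c) ∧ (∃ c : F, IsGLB {a, b} c)

end Defs

end Pool.H1.MV.Counterexample
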