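import Mathlib
import Pool.Agent.H1.MV.CounterexampleDefs

/-!
# General definitions: closure spaces of semilattice type: the proof
-/

set_option linter.unusedSimpArgs false

set_option linter.style.longLine false

namespace Pool.H1.MV.Counterexample

/-- The points of the closure space. -/
inductive Pt : Type
  | x : Pt
  | r (n : ℕ) : Pt
  | s (n : ℕ) : Pt
  | v (n : ℕ) : Pt
  | e (n : ℕ) : Pt
  | p (n : ℕ) : Pt
  | y (n : ℕ) : Pt

open Pt

/-- The rules `{i, j} → q` generating the closure operator. -/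
inductive Rule : Pt → Pt → Pt → Prop
  | r1 (n : ℕ) : Rule (r (n + 1)) (e n) (r n)
  | r2 (n : ℕ) : Rule (v n) (e n) (r n)
  | s1 (n : ℕ) : Rule (v n) (s (n + 1)) (s n)
  | s2 (n : ℕ) : Rule (v n) (e (n + 1)) (s n)
  | p1 (n : ℕ) : Rule x (r n) (p n)
  | p2 (n : ℕ) : Rule (y n) (e n) (p n)
  | y1 (n : ℕ) : Rule x (s n) (y n)
  | y2 (n : ℕ) : Rule (y (n + 1)) (v n) (y n)

/-- `Gen A q`: the point `q` can be derived from `A` by the rules. -/
inductive Gen (A : Set Pt) : Pt → Prop
  | base {q : Pt} (h : q ∈ A) : Gen A q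
  | step {i j q : Pt} (h : Rule i j q) (hi : Gen A i) (hj : Gen A j) : Gen A q

lemma Gen.mono {A B : Set Pt} (hAB : A ⊆ B) {q : Pt} (h : Gen A q) : Gen B q := by
  induction h with
  | base h => exact Gen.base (hAB h)
  | step h _ _ hi hj => exact Gen.step h hi hj

lemma Gen.idem {A : Set Pt} {q : Pt} (h : Gen {z | Gen A z} q) : Gen A q := by
  induction h with
  | base h => exact h
  | step h _ _ hi hj => exact Gen.step h hi hj

/-- The closure operator. -/
def cl : ClosureOperator (Set Pt) :=
  ClosureOperator.mk' (fun A => {q | Gen A q}) (fun _ _ hAB _ hq => Gen.mono hAB hq)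
    (fun _ _ hq => Gen.base hq) (fun _ _ hq => Gen.idem hq)

lemma mem_cl {A : Set Pt} {q : Pt} : q ∈ cl A ↔ Gen A q := Iff.rfl

lemma cl_empty : cl ∅ = ∅ := by
  ext q
  rw [mem_cl]
  constructor
  · intro h
    induction h with
    | base h => exact h
    | step _ _ _ hi _ => exact absurd hi (by simp)
  · intro h
    exact absurd h (by simp)

lemma closed_iff {A : Set Pt} : cl A = A ↔ ∀ i j q, Rule i j q → i ∈ A → j ∈ A → q ∈ A := by
  constructor
  · intro h i j q hr hi hj
    rw [← h, mem_cl]
    exact Gen.step hr (Gen.base hi) (Gen.base hj)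
  · intro h
    apply Set.Subset.antisymm
    · intro q hq
      rw [mem_cl] at hq
      induction hq with
      | base h => exact h
      | step hr _ _ hi hj => exact h _ _ _ hr hi hj
    · exact fun q hq => Gen.base hq

lemma open_iff {A : Set Pt} : cl Aᶜ = Aᶜ ↔ ∀ i j q, Rule i j q → q ∈ A → i ∈ A ∨ j ∈ A := by
  rw [closed_iff]
  constructor
  · intro h i j q hr hq
    by_contra hcon
    rw [not_or] at hcon
    exact h i j q hr hcon.1 hcon.2 hq
  · intro h i j q hr hi hj hq
    rcases h i j q hr hq with h1 | h1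
    · exact hi h1
    · exact hj h1

lemma mem_Clop {A : Set Pt} : A ∈ Clop cl ↔
    (∀ i j q, Rule i j q → i ∈ A → j ∈ A → q ∈ A) ∧
    (∀ i j q, Rule i j q → q ∈ A → i ∈ A ∨ j ∈ A) := by
  unfold Clop
  rw [Set.mem_ofPred_eq, closed_iff, open_iff]

lemma cl_algebraic : IsAlgebraic cl := by
  intro A
  apply Set.Subset.antisymm
  · intro q hq
    rw [mem_cl] at hq
    simp only [Set.mem_iUnion, Set.mem_ofPred_eq, exists_prop]
    induction hq with
    | @base q h =>
      exact ⟨{q}, ⟨by simpa using h, Set.finite_singleton q⟩, Gen.base (Set.mem_singleton q)⟩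
    | @step i j q hr _ _ hi hj =>
      obtain ⟨y1, ⟨h1, h1f⟩, h1g⟩ := hi
      obtain ⟨y2, ⟨h2, h2f⟩, h2g⟩ := hj
      exact ⟨y1 ∪ y2, ⟨Set.union_subset h1 h2, h1f.union h2f⟩,
        Gen.step hr (Gen.mono Set.subset_union_left h1g) (Gen.mono Set.subset_union_right h2g)⟩
  · intro q hq
    simp only [Set.mem_iUnion, Set.mem_ofPred_eq, exists_prop] at hq
    obtain ⟨y, ⟨hy, _⟩, hq⟩ := hq
    exact Gen.mono hy hq

/-- the `v`-part of the support of a point -/
def VV : Pt → ℕ → Prop
  | x, _ => False
  | r n, m => n ≤ m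
  | s n, m => n ≤ m
  | v n, m => m = n
  | e _, _ => False
  | p n, m => n ≤ m
  | y n, m => n ≤ m

/-- the `e`-part of the support of a point -/
def EE : Pt → ℕ → Prop
  | x, _ => False
  | r n, m => n ≤ m
  | s n, m => n + 1 ≤ m
  | v _, _ => False
  | e n, m => m = n
  | p n, m => n ≤ m
  | y n, m => n + 1 ≤ m

/-- whether `x` is in the support of a point -/
def XX : Pt → Prop
  | x => True
  | r _ => False
  | s _ => False
  | v _ => False
  | e _ => False
  | p _ => True
  | y _ => True

/-- The order on the points: inclusion of supports. -/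
def le (a b : Pt) : Prop := (∀ m, VV a m → VV b m) ∧ (∀ m, EE a m → EE b m) ∧ (XX a → XX b)

lemma le_antisymm' (a b : Pt) (h1 : le a b) (h2 : le b a) : a = b := by
  obtain ⟨h1v, h1e, h1x⟩ := h1
  obtain ⟨h2v, h2e, h2x⟩ := h2
  rcases a with _ | n | n | n | n | n | n <;> rcases b with _ | k | k | k | k | k | k
  all_goals first
    | rfl
    | (have a1 := h1v n; have a2 := h1v (n + 1); have a3 := h1v k; have a4 := h1v (k + 1)
       have b1 := h2v n; have b2 := h2v (n + 1); have b3 := h2v k; have b4 := h2v (k + 1)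
       have c1 := h1e n; have c2 := h1e (n + 1); have c3 := h1e k; have c4 := h1e (k + 1)
       have d1 := h2e n; have d2 := h2e (n + 1); have d3 := h2e k; have d4 := h2e (k + 1)
       clear h1v h1e h2v h2e
       simp only [VV, EE, XX, reduceCtorEq, Pt.r.injEq, Pt.s.injEq, Pt.v.injEq,
         Pt.e.injEq, Pt.p.injEq, Pt.y.injEq, imp_false, true_imp_iff, false_imp_iff, not_true_eq_false] at *
       try omega)
    | (have a1 := h1v n; have a2 := h1v (n + 1)
       have b1 := h2v n; have b2 := h2v (n + 1)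
       have c1 := h1e n; have c2 := h1e (n + 1)
       have d1 := h2e n; have d2 := h2e (n + 1)
       clear h1v h1e h2v h2e
       simp only [VV, EE, XX, reduceCtorEq, Pt.r.injEq, Pt.s.injEq, Pt.v.injEq,
         Pt.e.injEq, Pt.p.injEq, Pt.y.injEq, imp_false, true_imp_iff, false_imp_iff, not_true_eq_false] at *
       try omega)
    | (have a1 := h1v k; have a2 := h1v (k + 1)
       have b1 := h2v k; have b2 := h2v (k + 1)
       have c1 := h1e k; have c2 := h1e (k + 1)
       have d1 := h2e k; have d2 := h2e (k + 1)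
       clear h1v h1e h2v h2e
       simp only [VV, EE, XX, reduceCtorEq, Pt.r.injEq, Pt.s.injEq, Pt.v.injEq,
         Pt.e.injEq, Pt.p.injEq, Pt.y.injEq, imp_false, true_imp_iff, false_imp_iff, not_true_eq_false] at *
       try omega)

/-- The partial order on the points. -/
@[reducible] def ord : PartialOrder Pt where
  le := le
  le_refl a := ⟨fun _ h => h, fun _ h => h, fun h => h⟩
  le_trans a b c h1 h2 := ⟨fun m h => h2.1 m (h1.1 m h), fun m h => h2.2.1 m (h1.2.1 m h),
    fun h => h2.2.2 (h1.2.2 h)⟩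
  le_antisymm := le_antisymm'

lemma rule_le {i j q : Pt} (h : Rule i j q) : le i q ∧ le j q := by
  cases h <;> refine ⟨⟨fun m hm => ?_, fun m hm => ?_, fun hm => ?_⟩,
    ⟨fun m hm => ?_, fun m hm => ?_, fun hm => ?_⟩⟩ <;>
    simp only [VV, EE, XX] at * <;> omega

lemma rule_least {i j q : Pt} (h : Rule i j q) (w : Pt) (hi : le i w) (hj : le j w) : le q w := by
  obtain ⟨hiv, hie, hix⟩ := hi
  obtain ⟨hjv, hje, hjx⟩ := hj
  cases h <;> rename_i n <;> rcases w with _ | k | k | k | k | k | k <;>
    (refine ⟨fun m hm => ?_, fun m hm => ?_, fun hm => ?_⟩ <;>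
    first
    | (have a1 := hiv n; have a2 := hiv (n + 1); have a3 := hiv (n + 2); have a4 := hiv m
       have b1 := hjv n; have b2 := hjv (n + 1); have b3 := hjv (n + 2); have b4 := hjv m
       have c1 := hie n; have c2 := hie (n + 1); have c3 := hie (n + 2); have c4 := hie m
       have d1 := hje n; have d2 := hje (n + 1); have d3 := hje (n + 2); have d4 := hje m
       clear hiv hie hjv hje
       simp only [VV, EE, XX, imp_false, true_imp_iff, false_imp_iff, not_true_eq_false] at *
       try omega)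
    | (have a1 := hiv n; have a2 := hiv (n + 1); have a3 := hiv (n + 2)
       have b1 := hjv n; have b2 := hjv (n + 1); have b3 := hjv (n + 2)
       have c1 := hie n; have c2 := hie (n + 1); have c3 := hie (n + 2)
       have d1 := hje n; have d2 := hje (n + 1); have d3 := hje (n + 2)
       clear hiv hie hjv hje
       simp only [VV, EE, XX, imp_false, true_imp_iff, false_imp_iff, not_true_eq_false] at *
       try omega))

lemma gen_le {A : Set Pt} {q w : Pt} (h : Gen A q) (hw : ∀ a ∈ A, le a w) : le q w := by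
  induction h with
  | base h => exact hw _ h
  | step hr _ _ hi hj => exact rule_least hr w hi hj

lemma le_trans' {a b c : Pt} (h1 : le a b) (h2 : le b c) : le a c :=
  ⟨fun m h => h2.1 m (h1.1 m h), fun m h => h2.2.1 m (h1.2.1 m h), fun h => h2.2.2 (h1.2.2 h)⟩

lemma gen_below {A : Set Pt} {q : Pt} (h : Gen A q) : Gen (A ∩ {z | le z q}) q := by
  induction h with
  | base h => exact Gen.base ⟨h, ⟨fun _ h => h, fun _ h => h, fun h => h⟩⟩
  | step hr _ _ hi hj =>
    have hle := rule_le hr
    refine Gen.step hr (Gen.mono ?_ hi) (Gen.mono ?_ hj)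
    · exact fun z hz => ⟨hz.1, le_trans' hz.2 hle.1⟩
    · exact fun z hz => ⟨hz.1, le_trans' hz.2 hle.2⟩

lemma cl_semilatticeType : IsSemilatticeType cl := by
  refine ⟨cl_empty, cl_algebraic, ord, ?_⟩
  intro X q hX
  have hsub : X ⊆ {z | le z q} := by
    have h1 : Gen (X ∩ {z | le z q}) q := gen_below hX.prop
    have h2 := hX.le_of_le h1 Set.inter_subset_left
    exact fun z hz => (h2 hz).2
  refine ⟨fun z hz => hsub hz, fun w hw => ?_⟩
  exact gen_le (w := w) hX.prop (fun a ha => hw ha)

/-- The indices `n` at which the closure of `u` fails to be open. -/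
def T (u : Set Pt) : Set ℕ := {n | x ∈ u ∧ r n ∈ u ∧ ¬ Gen u (y n) ∧ ¬ Gen u (e n)}

/-- The least clopen set containing `u`. -/
def hull (u : Set Pt) : Set Pt := {q | Gen (u ∪ {z | ∃ n ∈ T u, z = y n}) q}

lemma hull_closed (u : Set Pt) : ∀ i j q, Rule i j q → i ∈ hull u → j ∈ hull u → q ∈ hull u :=
  fun _ _ _ hr hi hj => Gen.step hr hi hj

lemma sub_hull (u : Set Pt) : u ⊆ hull u := fun _ hq => Gen.base (Or.inl hq)

lemma gen_sub_hull (u : Set Pt) {q : Pt} (h : Gen u q) : q ∈ hull u :=
  Gen.mono Set.subset_union_left h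

/-- inversion for points that are not the conclusion of a rule -/
lemma hull_x {u : Set Pt} (h : x ∈ hull u) : x ∈ u := by
  cases h with
  | base h =>
    rcases h with h | ⟨n, _, hn⟩
    · exact h
    · exact absurd hn (by simp)
  | step hr _ _ => cases hr

lemma hull_r {u : Set Pt} {n : ℕ} (h : r n ∈ hull u) : r n ∈ u ∨ e n ∈ hull u := by
  cases h with
  | base h =>
    rcases h with h | ⟨n, _, hn⟩
    · exact Or.inl h
    · exact absurd hn (by simp)
  | step hr hi hj =>
    cases hr with
    | r1 => exact Or.inr hj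
    | r2 => exact Or.inr hj

lemma hull_s {u : Set Pt} {n : ℕ} (h : s n ∈ hull u) : s n ∈ u ∨ v n ∈ hull u := by
  cases h with
  | base h =>
    rcases h with h | ⟨n, _, hn⟩
    · exact Or.inl h
    · exact absurd hn (by simp)
  | step hr hi hj =>
    cases hr with
    | s1 => exact Or.inr hi
    | s2 => exact Or.inr hi

lemma hull_y {u : Set Pt} {n : ℕ} (h : y n ∈ hull u) : y n ∈ u ∨ x ∈ hull u ∨ v n ∈ hull u := by
  cases h with
  | base h =>
    rcases h with h | ⟨n, hn, _⟩
    · exact Or.inl h
    · exact Or.inr (Or.inl (sub_hull u hn.1))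
  | step hr hi hj =>
    cases hr with
    | y1 => exact Or.inr (Or.inl hi)
    | y2 => exact Or.inr (Or.inr hj)

/-- The key point: in a clopen set `a`, `y n ∈ a` and `v n ∉ a`, `x ∉ a` force `r (n+1) ∈ a`. -/
lemma key_r {a : Set Pt} (ha : a ∈ Clop cl) {n : ℕ} (hy : y n ∈ a) (hv : v n ∉ a) (hx : x ∉ a) :
    r (n + 1) ∈ a := by
  rw [mem_Clop] at ha
  obtain ⟨hc, ho⟩ := ha
  have h1 : s n ∈ a := (ho _ _ _ (Rule.y1 n) hy).resolve_left hx
  have h2 : e (n + 1) ∈ a := (ho _ _ _ (Rule.s2 n) h1).resolve_left hv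
  have h3 : y (n + 1) ∈ a := (ho _ _ _ (Rule.y2 n) hy).resolve_right hv
  have h4 : p (n + 1) ∈ a := hc _ _ _ (Rule.p2 (n + 1)) h3 h2
  exact (ho _ _ _ (Rule.p1 (n + 1)) h4).resolve_left hx

lemma hull_open {a b : Set Pt} (ha : a ∈ Clop cl) (hb : b ∈ Clop cl) :
    ∀ i j q, Rule i j q → q ∈ hull (a ∪ b) → i ∈ hull (a ∪ b) ∨ j ∈ hull (a ∪ b) := by
  have ha' := mem_Clop.mp ha
  have hb' := mem_Clop.mp hb
  have huo : ∀ i j q, Rule i j q → q ∈ a ∪ b → i ∈ a ∪ b ∨ j ∈ a ∪ b := by
    intro i j q hr hq
    rcases hq with hq | hq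
    · rcases ha'.2 i j q hr hq with h | h
      · exact Or.inl (Or.inl h)
      · exact Or.inr (Or.inl h)
    · rcases hb'.2 i j q hr hq with h | h
      · exact Or.inl (Or.inr h)
      · exact Or.inr (Or.inr h)
  set u := a ∪ b with hu
  have hcl := hull_closed u
  intro i j q hr hq
  have hq' : Gen (u ∪ {z | ∃ n ∈ T u, z = y n}) q := hq
  induction hq' generalizing i j with
  | @base q h =>
    rcases h with h | ⟨n, hn, rfl⟩
    · rcases huo i j q hr h with h1 | h1
      · exact Or.inl (sub_hull u h1)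
      · exact Or.inr (sub_hull u h1)
    · cases hr with
      | y1 => exact Or.inl (sub_hull u hn.1)
      | y2 =>
        right
        rcases huo _ _ _ (Rule.r2 n) hn.2.1 with h1 | h1
        · exact sub_hull u h1
        · exact absurd (Gen.base h1) hn.2.2.2
  | @step i' j' q hr' hi' hj' ihi ihj =>
    have hi : i' ∈ hull u := hi'
    have hj : j' ∈ hull u := hj'
    cases hr' with
    | r1 n => cases hr with
      | r1 => exact Or.inr hj
      | r2 => exact Or.inr hj
    | r2 n => cases hr with
      | r1 => exact Or.inr hj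
      | r2 => exact Or.inr hj
    | s1 n => cases hr with
      | s1 => exact Or.inl hi
      | s2 => exact Or.inl hi
    | s2 n => cases hr with
      | s1 => exact Or.inl hi
      | s2 => exact Or.inl hi
    | p1 n => cases hr with
      | p1 => exact Or.inl hi
      | p2 =>
        -- `x, r n ∈ hull`; need `y n` or `e n`
        rcases hull_r hj with h1 | h1
        · by_cases h2 : Gen u (y n)
          · exact Or.inl (gen_sub_hull u h2)
          · by_cases h3 : Gen u (e n)
            · exact Or.inr (gen_sub_hull u h3)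
            · exact Or.inl (Gen.base (Or.inr ⟨n, ⟨hull_x hi, h1, h2, h3⟩, rfl⟩))
        · exact Or.inr h1
    | p2 n => cases hr with
      | p2 => exact Or.inl hi
      | p1 =>
        -- `y n, e n ∈ hull`; need `x` or `r n`
        rcases hull_y hi with h1 | h1 | h1
        · by_cases hxu : x ∈ hull u
          · exact Or.inl hxu
          · by_cases hvu : v n ∈ hull u
            · exact Or.inr (hcl _ _ _ (Rule.r2 n) hvu hj)
            · right
              have hr1 : r (n + 1) ∈ hull u := by
                apply sub_hull u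
                rcases h1 with h1 | h1
                · exact Or.inl (key_r ha h1 (fun h => hvu (sub_hull u (Or.inl h)))
                    (fun h => hxu (sub_hull u (Or.inl h))))
                · exact Or.inr (key_r hb h1 (fun h => hvu (sub_hull u (Or.inr h)))
                    (fun h => hxu (sub_hull u (Or.inr h))))
              exact hcl _ _ _ (Rule.r1 n) hr1 hj
        · exact Or.inl h1
        · exact Or.inr (hcl _ _ _ (Rule.r2 n) h1 hj)
    | y1 n => cases hr with
      | y1 => exact Or.inl hi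
      | y2 =>
        rcases hull_s hj with h1 | h1
        · rcases huo _ _ _ (Rule.s1 n) h1 with h2 | h2
          · exact Or.inr (sub_hull u h2)
          · exact Or.inl (hcl _ _ _ (Rule.y1 (n + 1)) hi (sub_hull u h2))
        · exact Or.inr h1
    | y2 n => cases hr with
      | y2 => exact Or.inl hi
      | y1 =>
        rcases ihi _ _ (Rule.y1 (n + 1)) hi with h1 | h1
        · exact Or.inl h1
        · exact Or.inr (hcl _ _ _ (Rule.s1 n) hj h1)

lemma hull_least {u D : Set Pt}
    (huo : ∀ i j q, Rule i j q → q ∈ u → i ∈ u ∨ j ∈ u) (hD : D ∈ Clop cl) (huD : u ⊆ D) :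
    hull u ⊆ D := by
  rw [mem_Clop] at hD
  obtain ⟨hc, ho⟩ := hD
  intro q hq
  have hq' : Gen (u ∪ {z | ∃ n ∈ T u, z = y n}) q := hq
  clear hq
  induction hq' with
  | @base q h =>
    rcases h with h | ⟨n, hn, rfl⟩
    · exact huD h
    · by_contra hy
      have hx : x ∈ D := huD hn.1
      have hv : v n ∈ D := by
        rcases huo _ _ _ (Rule.r2 n) hn.2.1 with h1 | h1
        · exact huD h1
        · exact absurd (Gen.base h1) hn.2.2.2
      have hr1 : r (n + 1) ∈ D := by
        rcases huo _ _ _ (Rule.r1 n) hn.2.1 with h1 | h1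
        · exact huD h1
        · exact absurd (Gen.base h1) hn.2.2.2
      have hs : s n ∉ D := fun h => hy (hc _ _ _ (Rule.y1 n) hx h)
      have he : e (n + 1) ∉ D := fun h => hs (hc _ _ _ (Rule.s2 n) hv h)
      have hy1 : y (n + 1) ∉ D := fun h => hy (hc _ _ _ (Rule.y2 n) h hv)
      have hp1 : p (n + 1) ∈ D := hc _ _ _ (Rule.p1 (n + 1)) hx hr1
      rcases ho _ _ _ (Rule.p2 (n + 1)) hp1 with h1 | h1
      · exact hy1 h1
      · exact he h1
  | step hr _ _ hi hj => exact hc _ _ _ hr hi hj

lemma exists_lub (a b : Clop cl) : ∃ c : Clop cl, IsLUB {a, b} c := by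
  obtain ⟨a, ha⟩ := a
  obtain ⟨b, hb⟩ := b
  have hmem : hull (a ∪ b) ∈ Clop cl := mem_Clop.mpr ⟨hull_closed _, hull_open ha hb⟩
  refine ⟨⟨hull (a ∪ b), hmem⟩, ?_, ?_⟩
  · intro z hz
    rcases hz with rfl | hz
    · exact fun q hq => sub_hull _ (Or.inl hq)
    · rw [Set.mem_singleton_iff] at hz
      subst hz
      exact fun q hq => sub_hull _ (Or.inr hq)
  · intro D hD
    have h1 : a ⊆ D.1 := hD (Set.mem_insert _ _)
    have h2 : b ⊆ D.1 := hD (Set.mem_insert_of_mem _ (Set.mem_singleton _))
    refine hull_least ?_ D.2 (Set.union_subset h1 h2)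
    have ha' := mem_Clop.mp ha
    have hb' := mem_Clop.mp hb
    intro i j q hr hq
    rcases hq with hq | hq
    · rcases ha'.2 i j q hr hq with h | h
      · exact Or.inl (Or.inl h)
      · exact Or.inr (Or.inl h)
    · rcases hb'.2 i j q hr hq with h | h
      · exact Or.inl (Or.inr h)
      · exact Or.inr (Or.inr h)

lemma compl_mem {a : Set Pt} (ha : a ∈ Clop cl) : aᶜ ∈ Clop cl := by
  unfold Clop at *
  rw [Set.mem_ofPred_eq] at *
  exact ⟨ha.2, by rw [compl_compl]; exact ha.1⟩

lemma exists_glb (a b : Clop cl) : ∃ c : Clop cl, IsGLB {a, b} c := by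
  obtain ⟨c, hc⟩ := exists_lub ⟨a.1ᶜ, compl_mem a.2⟩ ⟨b.1ᶜ, compl_mem b.2⟩
  refine ⟨⟨c.1ᶜ, compl_mem c.2⟩, ?_, ?_⟩
  · intro z hz
    rcases hz with rfl | hz
    · have h1 : z.1ᶜ ⊆ c.1 := hc.1 (Set.mem_insert _ _)
      exact Set.compl_subset_comm.mp h1
    · rw [Set.mem_singleton_iff] at hz
      subst hz
      have h1 : z.1ᶜ ⊆ c.1 := hc.1 (Set.mem_insert_of_mem _ (Set.mem_singleton _))
      exact Set.compl_subset_comm.mp h1
  · intro D hD
    have h1 : D.1 ⊆ a.1 := hD (Set.mem_insert _ _)
    have h2 : D.1 ⊆ b.1 := hD (Set.mem_insert_of_mem _ (Set.mem_singleton _))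
    have h3 : c ≤ ⟨D.1ᶜ, compl_mem D.2⟩ := by
      apply hc.2
      intro z hz
      rcases hz with rfl | hz
      · exact Set.compl_subset_compl.mpr h1
      · rw [Set.mem_singleton_iff] at hz
        subst hz
        exact Set.compl_subset_compl.mpr h2
    have h4 : c.1 ⊆ D.1ᶜ := h3
    exact Set.subset_compl_comm.mp h4

/-- The open set whose closure is not open. -/
def uu : Set Pt := {q | q = x ∨ (∃ n, q = r n) ∨ (∃ n, q = v n)}

/-- Its closure. -/
def cc : Set Pt := {q | q = x ∨ (∃ n, q = r n) ∨ (∃ n, q = v n) ∨ (∃ n, q = p n)}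

lemma uu_open : cl uuᶜ = uuᶜ := by
  rw [open_iff]
  intro i j q hr hq
  cases hr <;> simp [uu] at *

lemma cl_uu : cl uu = cc := by
  apply Set.Subset.antisymm
  · intro q hq
    rw [mem_cl] at hq
    induction hq with
    | base h =>
      rcases h with h | h | h
      · exact Or.inl h
      · exact Or.inr (Or.inl h)
      · exact Or.inr (Or.inr (Or.inl h))
    | step hr _ _ hi hj => cases hr <;> simp [cc] at *
  · intro q hq
    rw [mem_cl]
    rcases hq with h | h | h | ⟨n, rfl⟩
    · exact Gen.base (Or.inl h)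
    · exact Gen.base (Or.inr (Or.inl h))
    · exact Gen.base (Or.inr (Or.inr h))
    · exact Gen.step (Rule.p1 n) (Gen.base (Or.inl rfl)) (Gen.base (Or.inr (Or.inl ⟨n, rfl⟩)))

lemma cc_reg : cc ∈ Reg cl := by
  unfold Reg
  rw [Set.mem_ofPred_eq]
  apply Set.Subset.antisymm
  · have h1 : uu ⊆ interior cl cc := by
      unfold interior
      rw [Set.subset_compl_comm, ← uu_open]
      apply cl.monotone
      rw [Set.compl_subset_compl, ← cl_uu]
      exact cl.le_closure uu
    rw [← cl_uu]
    exact cl.monotone (by rw [cl_uu]; exact h1)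
  · have h2 : interior cl cc ⊆ cc := by
      unfold interior
      rw [Set.compl_subset_comm]
      exact cl.le_closure _
    have h3 : cl cc = cc := by rw [← cl_uu]; exact cl.idempotent uu
    calc cl (interior cl cc) ⊆ cl cc := cl.monotone h2
      _ = cc := h3

lemma cc_not_clopen : cc ∉ Clop cl := by
  intro h
  rw [mem_Clop] at h
  have h1 : p 0 ∈ cc := Or.inr (Or.inr (Or.inr ⟨0, rfl⟩))
  rcases h.2 _ _ _ (Rule.p2 0) h1 with h2 | h2 <;> simp [cc] at h2

/-- **Negative answer to Q1.** There is a closure space of semilattice type in which the clopen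
sets form a lattice although some regular closed set is not clopen. -/
theorem result : ∃ (P : Type) (φ : ClosureOperator (Set P)),
    IsSemilatticeType φ ∧ IsLatticeFamily (Clop φ) ∧ Clop φ ≠ Reg φ := by
  refine ⟨Pt, cl, cl_semilatticeType, fun a b => ⟨exists_lub a b, exists_glb a b⟩, ?_⟩
  intro h
  apply cc_not_clopen
  rw [h]
  exact cc_reg

end Pool.H1.MV.Counterexample
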