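import Pool.Agent.H31.Orth.Main

/-!
# MP_68c21c_an: essential monotonicity of the orthogonal speed: definitions of the statement
-/

namespace Pool.H1.MV.OrthogonalSpeed

open Complex Metric Set Filter Topology ComplexConjugate

open H31.Orth

/-- The hyperbolic distance of the unit disc,
`ω(z,w) = (1/2) log ((1+|T_z(w)|)/(1-|T_z(w)|))`, `T_z(w) = (z-w)/(1-conj z * w)`. -/
noncomputable def omega (z w : ℂ) : ℝ :=
  1 / 2 * Real.log ((1 + ‖(z - w) / (1 - conj z * w)‖) / (1 - ‖(z - w) / (1 - conj z * w)‖))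

/-- A non-elliptic semigroup of holomorphic self-maps of the unit disc (the maps `φ t` for `t < 0`
and the values outside of the disc are irrelevant). -/
structure IsNonEllipticSemigroup (φ : ℝ → ℂ → ℂ) : Prop where
  holo : ∀ t, 0 ≤ t → DifferentiableOn ℂ (φ t) (ball 0 1)
  maps : ∀ t, 0 ≤ t → MapsTo (φ t) (ball 0 1) (ball 0 1)
  zero : ∀ z ∈ ball (0 : ℂ) 1, φ 0 z = z
  add : ∀ t s, 0 ≤ t → 0 ≤ s → ∀ z ∈ ball (0 : ℂ) 1, φ (t + s) z = φ t (φ s z)
  cont : ∀ t₀, 0 ≤ t₀ → TendstoLocallyUniformlyOn φ (φ t₀) (𝓝[Ici 0] t₀) (ball 0 1)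
  noFixed : ∀ t, 0 < t → ∀ z ∈ ball (0 : ℂ) 1, φ t z ≠ z

/-- `τ` is the Denjoy–Wolff point of the semigroup. -/
def IsDenjoyWolff (φ : ℝ → ℂ → ℂ) (τ : ℂ) : Prop :=
  ‖τ‖ = 1 ∧ TendstoLocallyUniformlyOn φ (fun _ => τ) atTop (ball 0 1)

/-- `h` is a Koenigs function of the semigroup. -/
structure IsKoenigs (φ : ℝ → ℂ → ℂ) (h : ℂ → ℂ) : Prop where
  holo : DifferentiableOn ℂ h (ball 0 1)
  inj : InjOn h (ball 0 1)
  translate : ∀ t : ℝ, 0 ≤ t → ∀ w ∈ h '' ball 0 1, w + I * t ∈ h '' ball 0 1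
  eq : ∀ t : ℝ, 0 ≤ t → ∀ z ∈ ball (0 : ℂ) 1, h (φ t z) = h z + I * t

/-- `p` is a point of the diameter `{r τ : -1 < r < 1}` minimising the hyperbolic distance to
`z`. -/
def IsNearest (τ z p : ℂ) : Prop :=
  (∃ r : ℝ, -1 < r ∧ r < 1 ∧ p = r * τ) ∧ ∀ r : ℝ, -1 < r → r < 1 → omega p z ≤ omega (r * τ) z

/-- The projection `π(z)` onto the diameter through `τ` (for `|τ| = 1`, `|z| < 1` the nearest point
exists and is unique, see the first part of `result`). -/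
noncomputable def proj (τ z : ℂ) : ℂ := Classical.epsilon (IsNearest τ z)

/-- The orthogonal speed `v°(t) = ω(0, π(φ_t(0)))`. -/
noncomputable def orthogonalSpeed (φ : ℝ → ℂ → ℂ) (τ : ℂ) (t : ℝ) : ℝ :=
  omega 0 (proj τ (φ t 0))

end Pool.H1.MV.OrthogonalSpeed
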