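import Pool.Agent.H31.Orth.Main
import Pool.Agent.H1.MV.OrthogonalSpeedDefs

/-!
# MP_68c21c_an: essential monotonicity of the orthogonal speed: the proof
-/

namespace Pool.H1.MV.OrthogonalSpeed

open Complex Metric Set Filter Topology ComplexConjugate

open H31.Orth

/-- The Cayley transform sending `τ` to `∞`, `0` to `1`. -/
noncomputable def cay (τ z : ℂ) : ℂ := (τ + z) / (τ - z)

/-- Its inverse. -/
noncomputable def yac (τ w : ℂ) : ℂ := τ * (w - 1) / (w + 1)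

lemma sub_ne {τ z : ℂ} (hτ : ‖τ‖ = 1) (hz : z ∈ ball (0 : ℂ) 1) : τ - z ≠ 0 := by
  intro h
  have : τ = z := sub_eq_zero.1 h
  rw [mem_ball_zero_iff, ← this, hτ] at hz
  exact lt_irrefl _ hz

lemma add_one_ne {w : ℂ} (hw : w ∈ HH) : w + 1 ≠ 0 := by
  intro h
  have h1 := congrArg Complex.re h
  rw [mem_HH] at hw
  simp at h1
  linarith

lemma cay_mem {τ z : ℂ} (hτ : ‖τ‖ = 1) (hz : z ∈ ball (0 : ℂ) 1) : cay τ z ∈ HH := by
  have h0 := sub_ne hτ hz
  have h1 : (cay τ z).re = (1 - ‖z‖ ^ 2) / normSq (τ - z) := by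
    have h2 : 1 = τ.re * τ.re + τ.im * τ.im := by
      have : ‖τ‖ ^ 2 = 1 := by rw [hτ]; norm_num
      rw [Complex.sq_norm, Complex.normSq_apply] at this
      linarith
    rw [cay, Complex.div_re, Complex.sq_norm, Complex.normSq_apply z, ← add_div]
    congr 1
    · simp only [Complex.add_re, Complex.add_im, Complex.sub_re, Complex.sub_im]
      nlinarith
  rw [mem_HH, h1]
  have h3 : 0 < normSq (τ - z) := Complex.normSq_pos.2 h0
  rw [mem_ball_zero_iff] at hz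
  have h4 : 0 < 1 - ‖z‖ ^ 2 := by nlinarith [norm_nonneg z]
  positivity

lemma yac_mem {τ w : ℂ} (hτ : ‖τ‖ = 1) (hw : w ∈ HH) : yac τ w ∈ ball (0 : ℂ) 1 := by
  rw [mem_ball_zero_iff, yac, norm_div, norm_mul, hτ, one_mul,
    div_lt_one (norm_pos_iff.2 (add_one_ne hw))]
  have := norm_sub_lt hw one_mem_HH
  simpa using this

lemma yac_cay {τ z : ℂ} (hτ : ‖τ‖ = 1) (hz : z ∈ ball (0 : ℂ) 1) : yac τ (cay τ z) = z := by
  have h0 := sub_ne hτ hz
  have hτ0 : τ ≠ 0 := by rintro rfl; simp at hτ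
  have h1 : cay τ z + 1 = 2 * τ / (τ - z) := by
    rw [cay]; field_simp; ring
  have h2 : cay τ z - 1 = 2 * z / (τ - z) := by
    rw [cay]; field_simp; ring
  rw [yac, h1, h2]
  field_simp

lemma cay_yac {τ w : ℂ} (hτ : ‖τ‖ = 1) (hw : w ∈ HH) : cay τ (yac τ w) = w := by
  have h0 := add_one_ne hw
  have hτ0 : τ ≠ 0 := by rintro rfl; simp at hτ
  have h1 : τ + yac τ w = 2 * τ * w / (w + 1) := by
    rw [yac]; field_simp; ring
  have h2 : τ - yac τ w = 2 * τ / (w + 1) := by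
    rw [yac]; field_simp; ring
  rw [cay, h1, h2]
  field_simp

lemma yac_one (τ : ℂ) : yac τ 1 = 0 := by simp [yac]

lemma differentiableOn_yac (τ : ℂ) : DifferentiableOn ℂ (yac τ) HH := by
  apply DifferentiableOn.div
  · fun_prop
  · fun_prop
  · intro w hw
    exact add_one_ne hw

lemma differentiableOn_cay {τ : ℂ} (hτ : ‖τ‖ = 1) : DifferentiableOn ℂ (cay τ) (ball 0 1) := by
  apply DifferentiableOn.div
  · fun_prop
  · fun_prop
  · intro w hw
    exact sub_ne hτ hw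

lemma hsemi {φ : ℝ → ℂ → ℂ} {τ : ℂ} {h : ℂ → ℂ} (hφ : IsNonEllipticSemigroup φ)
    (hτ : IsDenjoyWolff φ τ) (hh : IsKoenigs φ h) :
    HSemi (fun t w => cay τ (φ t (yac τ w))) (fun w => -I * (h (yac τ w) - h 0)) where
  holo t ht := by
    apply (differentiableOn_cay hτ.1).comp
    · exact (hφ.holo t ht).comp (differentiableOn_yac τ) (fun w hw => yac_mem hτ.1 hw)
    · intro w hw
      exact hφ.maps t ht (yac_mem hτ.1 hw)
  maps t ht w hw := cay_mem hτ.1 (hφ.maps t ht (yac_mem hτ.1 hw))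
  cont w hw := by
    intro t₀ ht₀
    have hz := yac_mem hτ.1 hw
    have h1 : Tendsto (fun t => φ t (yac τ w)) (𝓝[Ici 0] t₀) (𝓝 (φ t₀ (yac τ w))) :=
      (hφ.cont t₀ ht₀).tendsto_at hz
    have h2 : ContinuousAt (cay τ) (φ t₀ (yac τ w)) :=
      ((differentiableOn_cay hτ.1).differentiableAt
        (isOpen_ball.mem_nhds (hφ.maps t₀ ht₀ hz))).continuousAt
    exact h2.tendsto.comp h1
  tend := by
    have h0 : (0 : ℂ) ∈ ball (0 : ℂ) 1 := by simp
    have h1 : Tendsto (fun t => φ t 0) atTop (𝓝 τ) := hτ.2.tendsto_at h0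
    have h2 : Tendsto (fun t => ‖τ + φ t 0‖) atTop (𝓝 2) := by
      have := (tendsto_const_nhds (x := τ)).add h1 |>.norm
      have h3 : ‖τ + τ‖ = 2 := by
        rw [← two_mul, norm_mul, hτ.1]; simp
      rwa [h3] at this
    have h3 : Tendsto (fun t => ‖τ - φ t 0‖) atTop (𝓝[>] 0) := by
      rw [tendsto_nhdsWithin_iff]
      constructor
      · have := (tendsto_const_nhds (x := τ)).sub h1 |>.norm
        simpa using this
      · filter_upwards [eventually_ge_atTop 0] with t ht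
        exact norm_pos_iff.2 (sub_ne hτ.1 (hφ.maps t ht h0))
    have h4 : Tendsto (fun t => (‖τ - φ t 0‖)⁻¹) atTop atTop :=
      tendsto_inv_nhdsGT_zero.comp h3
    have h5 := h4.atTop_mul_pos (by norm_num : (0 : ℝ) < 2) h2
    simp only [yac_one, cay, norm_div]
    refine h5.congr ?_
    intro t
    rw [div_eq_inv_mul]
  qholo := by
    apply DifferentiableOn.const_mul
    apply DifferentiableOn.sub_const
    exact hh.holo.comp (differentiableOn_yac τ) (fun w hw => yac_mem hτ.1 hw)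
  qinj := by
    intro x hx y hy hxy
    have h1 : h (yac τ x) = h (yac τ y) := by
      have h2 : -I ≠ 0 := neg_ne_zero.2 Complex.I_ne_zero
      have h3 := mul_left_cancel₀ h2 hxy
      linear_combination h3
    have h2 := hh.inj (yac_mem hτ.1 hx) (yac_mem hτ.1 hy) h1
    rw [← cay_yac hτ.1 hx, ← cay_yac hτ.1 hy, h2]
  qsemi t ht w hw := by
    have hz := yac_mem hτ.1 hw
    simp only [yac_cay hτ.1 (hφ.maps t ht hz), hh.eq t ht _ hz]
    linear_combination (-(t : ℂ)) * Complex.I_mul_I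
  q1 := by
    simp [yac_one]

/-- The pseudo-hyperbolic distance. -/
noncomputable def pse (z w : ℂ) : ℝ := ‖(z - w) / (1 - conj z * w)‖

lemma omega_eq (z w : ℂ) : omega z w = 1 / 2 * Real.log ((1 + pse z w) / (1 - pse z w)) := rfl

/-- `omega` is increasing in the pseudo-hyperbolic distance. -/
lemma omega_le_iff {z w z' w' : ℂ} (h1 : pse z w < 1) (h2 : pse z' w' < 1) :
    omega z w ≤ omega z' w' ↔ pse z w ≤ pse z' w' := by
  have p1 : 0 ≤ pse z w := norm_nonneg _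
  have p2 : 0 ≤ pse z' w' := norm_nonneg _
  rw [omega_eq, omega_eq, mul_le_mul_iff_right₀ (by norm_num : (0 : ℝ) < 1 / 2),
    Real.log_le_log_iff (div_pos (by linarith) (by linarith)) (div_pos (by linarith) (by linarith)),
    div_le_div_iff₀ (by linarith) (by linarith)]
  constructor <;> intro h <;> nlinarith

/-- The pseudo-hyperbolic distance from a point of the diameter, in half-plane coordinates. -/
lemma pse_sq {τ z : ℂ} (hτ : ‖τ‖ = 1) (hz : z ∈ ball (0 : ℂ) 1) {r : ℝ} (h1 : -1 < r)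
    (h2 : r < 1) :
    pse (r * τ) z ^ 2 = 1 - 4 * ((1 + r) / (1 - r)) * (cay τ z).re /
      (((1 + r) / (1 - r)) ^ 2 + 2 * ((1 + r) / (1 - r)) * (cay τ z).re + ‖cay τ z‖ ^ 2) := by
  set x : ℝ := (1 + r) / (1 - r) with hx
  set w := cay τ z with hw
  have hxpos : 0 < x := div_pos (by linarith) (by linarith)
  have hwH : w ∈ HH := cay_mem hτ hz
  have hw0 : 0 < w.re := hwH
  have hzw : z = τ * (w - 1) / (w + 1) := (yac_cay hτ hz).symm
  have hr1 : (1 - r) ≠ 0 := by linarith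
  have hrx : r = (x - 1) / (x + 1) := by
    rw [hx]
    field_simp
    ring
  have hwne := add_one_ne hwH
  have hxne : (x : ℂ) + 1 ≠ 0 := by
    have : (x : ℂ) + 1 = ((x + 1 : ℝ) : ℂ) := by push_cast; ring
    rw [this, Complex.ofReal_ne_zero]
    linarith
  have hxw : (x : ℂ) + w ≠ 0 := by
    intro h
    have := congrArg Complex.re h
    simp at this
    linarith
  have hττ : conj τ * τ = 1 := by
    rw [← Complex.normSq_eq_conj_mul_self, Complex.normSq_eq_norm_sq, hτ]; norm_num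
  have hnum : (r * τ - z) = 2 * τ * (x - w) / ((x + 1) * (w + 1)) := by
    rw [hzw, hrx]
    push_cast
    field_simp
    ring
  have hden : 1 - conj (r * τ) * z = 2 * (x + w) / ((x + 1) * (w + 1)) := by
    have h3 : conj (r * τ) * z = (x - 1) / (x + 1) * (w - 1) / (w + 1) := by
      rw [map_mul, Complex.conj_ofReal, hzw, hrx]
      push_cast
      calc ((x : ℂ) - 1) / (x + 1) * conj τ * (τ * (w - 1) / (w + 1))
          = (conj τ * τ) * ((x - 1) / (x + 1) * (w - 1) / (w + 1)) := by ring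
        _ = _ := by rw [hττ, one_mul]
    rw [h3]
    field_simp
    ring
  have hq : pse (r * τ) z = ‖(x : ℂ) - w‖ / ‖(x : ℂ) + w‖ := by
    rw [pse, hnum, hden]
    have : 2 * τ * (x - w) / ((x + 1) * (w + 1)) / (2 * (x + w) / ((x + 1) * (w + 1))) =
        τ * ((x - w) / (x + w)) := by
      field_simp
    rw [this, norm_mul, hτ, one_mul, norm_div]
  rw [hq, div_pow, Complex.sq_norm, Complex.sq_norm, Complex.sq_norm, Complex.normSq_apply,
    Complex.normSq_apply, Complex.normSq_apply]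
  simp only [Complex.sub_re, Complex.sub_im, Complex.add_re, Complex.add_im, Complex.ofReal_re,
    Complex.ofReal_im]
  have hD : (x + w.re) * (x + w.re) + (0 + w.im) * (0 + w.im) =
      x ^ 2 + 2 * x * w.re + (w.re * w.re + w.im * w.im) := by ring
  rw [hD]
  have hDpos : 0 < x ^ 2 + 2 * x * w.re + (w.re * w.re + w.im * w.im) := by
    have : 0 ≤ w.im * w.im := mul_self_nonneg _
    positivity
  rw [eq_sub_iff_add_eq, ← add_div, div_eq_one_iff_eq hDpos.ne']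
  ring

lemma pse_lt_one {τ z : ℂ} (hτ : ‖τ‖ = 1) (hz : z ∈ ball (0 : ℂ) 1) {r : ℝ} (h1 : -1 < r)
    (h2 : r < 1) : pse (r * τ) z < 1 := by
  have h3 := pse_sq hτ hz h1 h2
  have hw0 : 0 < (cay τ z).re := cay_mem hτ hz
  have hxpos : 0 < (1 + r) / (1 - r) := div_pos (by linarith) (by linarith)
  have h4 : 0 < 4 * ((1 + r) / (1 - r)) * (cay τ z).re /
      (((1 + r) / (1 - r)) ^ 2 + 2 * ((1 + r) / (1 - r)) * (cay τ z).re + ‖cay τ z‖ ^ 2) := by
    positivity
  have h5 : 0 ≤ pse (r * τ) z := norm_nonneg _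
  nlinarith

/-- The comparison of two points of the diameter. -/
lemma pse_le_iff {τ z : ℂ} (hτ : ‖τ‖ = 1) (hz : z ∈ ball (0 : ℂ) 1) {r s : ℝ} (h1 : -1 < r)
    (h2 : r < 1) (hs : s = (‖cay τ z‖ - 1) / (‖cay τ z‖ + 1)) :
    pse (s * τ) z ≤ pse (r * τ) z ∧ (pse (r * τ) z ≤ pse (s * τ) z → r = s) := by
  set w := cay τ z with hw
  have hw0 : 0 < w.re := cay_mem hτ hz
  have hwn : 0 < ‖w‖ := hw0.trans_le (Complex.re_le_norm _)
  set X := ‖w‖ with hX
  have hs1 : -1 < s := by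
    rw [hs, lt_div_iff₀ (by linarith)]; linarith
  have hs2 : s < 1 := by
    rw [hs, div_lt_iff₀ (by linarith)]; linarith
  have hsX : (1 + s) / (1 - s) = X := by
    rw [hs]
    field_simp
    ring
  have e1 := pse_sq hτ hz h1 h2
  have e2 := pse_sq hτ hz hs1 hs2
  rw [hsX] at e2
  set x : ℝ := (1 + r) / (1 - r) with hx
  have hxpos : 0 < x := div_pos (by linarith) (by linarith)
  rw [← hw, ← hX] at e1 e2
  have p1 : 0 ≤ pse (r * τ) z := norm_nonneg _
  have p2 : 0 ≤ pse (s * τ) z := norm_nonneg _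
  have key : pse (r * τ) z ^ 2 - pse (s * τ) z ^ 2 =
      2 * w.re * (x - X) ^ 2 / ((X + w.re) * (x ^ 2 + 2 * x * w.re + X ^ 2)) := by
    rw [e1, e2]
    have d1 : x ^ 2 + 2 * x * w.re + X ^ 2 ≠ 0 := by positivity
    have d2 : X ^ 2 + 2 * X * w.re + X ^ 2 ≠ 0 := by positivity
    have d3 : X + w.re ≠ 0 := by positivity
    field_simp
    ring
  have hDpos : 0 < (X + w.re) * (x ^ 2 + 2 * x * w.re + X ^ 2) := by positivity
  constructor
  · have h5 : 0 ≤ 2 * w.re * (x - X) ^ 2 / ((X + w.re) * (x ^ 2 + 2 * x * w.re + X ^ 2)) := by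
      positivity
    have h6 : pse (s * τ) z ^ 2 ≤ pse (r * τ) z ^ 2 := by linarith
    exact (pow_le_pow_iff_left₀ p2 p1 two_ne_zero).1 h6
  · intro hle
    have h6 : pse (r * τ) z ^ 2 ≤ pse (s * τ) z ^ 2 := by gcongr
    have h7 : 2 * w.re * (x - X) ^ 2 / ((X + w.re) * (x ^ 2 + 2 * x * w.re + X ^ 2)) ≤ 0 := by
      linarith
    have h8 : (x - X) ^ 2 = 0 := by
      by_contra hne
      have h9 : 0 < (x - X) ^ 2 := lt_of_le_of_ne (sq_nonneg _) (Ne.symm hne)
      have : 0 < 2 * w.re * (x - X) ^ 2 / ((X + w.re) * (x ^ 2 + 2 * x * w.re + X ^ 2)) := by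
        positivity
      linarith
    have h9 : x = X := by
      have := pow_eq_zero_iff (two_ne_zero) |>.1 h8
      linarith
    rw [hs, ← h9, hx]
    have hr1 : (1 - r) ≠ 0 := by linarith
    field_simp
    ring

lemma isNearest_iff {τ z p : ℂ} (hτ : ‖τ‖ = 1) (hz : z ∈ ball (0 : ℂ) 1) :
    IsNearest τ z p ↔ p = (((‖cay τ z‖ - 1) / (‖cay τ z‖ + 1) : ℝ) : ℂ) * τ := by
  have hw0 : 0 < (cay τ z).re := cay_mem hτ hz
  have hwn : 0 < ‖cay τ z‖ := hw0.trans_le (Complex.re_le_norm _)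
  set s : ℝ := (‖cay τ z‖ - 1) / (‖cay τ z‖ + 1) with hs
  have hs1 : -1 < s := by
    rw [hs, lt_div_iff₀ (by linarith)]; linarith
  have hs2 : s < 1 := by
    rw [hs, div_lt_iff₀ (by linarith)]; linarith
  constructor
  · rintro ⟨⟨r, h1, h2, rfl⟩, hmin⟩
    have h3 := hmin s hs1 hs2
    rw [omega_le_iff (pse_lt_one hτ hz h1 h2) (pse_lt_one hτ hz hs1 hs2)] at h3
    rw [(pse_le_iff hτ hz h1 h2 hs).2 h3]
  · rintro rfl
    refine ⟨⟨s, hs1, hs2, rfl⟩, ?_⟩
    intro r h1 h2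
    rw [omega_le_iff (pse_lt_one hτ hz hs1 hs2) (pse_lt_one hτ hz h1 h2)]
    exact (pse_le_iff hτ hz h1 h2 hs).1

lemma existsUnique_nearest {τ z : ℂ} (hτ : ‖τ‖ = 1) (hz : z ∈ ball (0 : ℂ) 1) :
    ∃! p, IsNearest τ z p := by
  refine ⟨(((‖cay τ z‖ - 1) / (‖cay τ z‖ + 1) : ℝ) : ℂ) * τ, ?_, ?_⟩
  · exact (isNearest_iff hτ hz).2 rfl
  · intro p hp
    exact (isNearest_iff hτ hz).1 hp

lemma proj_eq {τ z : ℂ} (hτ : ‖τ‖ = 1) (hz : z ∈ ball (0 : ℂ) 1) :
    proj τ z = (((‖cay τ z‖ - 1) / (‖cay τ z‖ + 1) : ℝ) : ℂ) * τ := by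
  have h1 : IsNearest τ z (proj τ z) := Classical.epsilon_spec (existsUnique_nearest hτ hz).exists
  exact (isNearest_iff hτ hz).1 h1

lemma omega_zero_proj {τ z : ℂ} (hτ : ‖τ‖ = 1) (hz : z ∈ ball (0 : ℂ) 1)
    (h1 : 1 ≤ ‖cay τ z‖) : omega 0 (proj τ z) = 1 / 2 * Real.log ‖cay τ z‖ := by
  rw [proj_eq hτ hz, omega]
  set X := ‖cay τ z‖ with hX
  have h2 : ‖(0 - (((X - 1) / (X + 1) : ℝ) : ℂ) * τ) /
      (1 - conj (0 : ℂ) * ((((X - 1) / (X + 1) : ℝ) : ℂ) * τ))‖ = (X - 1) / (X + 1) := by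
    rw [map_zero, zero_mul, sub_zero, div_one, zero_sub, norm_neg, norm_mul, hτ, mul_one,
      Complex.norm_real, Real.norm_eq_abs, abs_of_nonneg]
    exact div_nonneg (by linarith) (by linarith)
  rw [h2]
  congr 2
  have h3 : X + 1 ≠ 0 := by linarith
  field_simp
  ring

lemma orthogonalSpeed_eq {φ : ℝ → ℂ → ℂ} {τ : ℂ} {h : ℂ → ℂ} (hφ : IsNonEllipticSemigroup φ)
    (hτ : IsDenjoyWolff φ τ) (hh : IsKoenigs φ h) {t : ℝ} (ht : 0 ≤ t) :
    orthogonalSpeed φ τ t = 1 / 2 * Real.log ‖cay τ (φ t 0)‖ ∧ 1 ≤ ‖cay τ (φ t 0)‖ := by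
  have h0 : (0 : ℂ) ∈ ball (0 : ℂ) 1 := by simp
  have S := hsemi hφ hτ hh
  have h1 : 1 ≤ ‖cay τ (φ t 0)‖ := by
    have h2 := S.orbit_one_le_re ht
    rw [yac_one] at h2
    exact h2.trans (Complex.re_le_norm _)
  exact ⟨omega_zero_proj hτ.1 (hφ.maps t ht h0) h1, h1⟩

/-- **Main result.**  The nearest point projection is well defined, and if `h(𝔻) ⊆ k(𝔻)` for the
Koenigs functions `h`, `k` of two non-elliptic semigroups `φ`, `ψ` (parabolic or not), then the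
orthogonal speeds satisfy `v°_ψ(t) - C ≤ v°_φ(t)` for all `t ≥ 0`; in particular the liminf in Q1
is `> -∞`. -/
theorem result :
    (∀ τ z : ℂ, ‖τ‖ = 1 → z ∈ ball (0 : ℂ) 1 → ∃! p, IsNearest τ z p) ∧
    ∀ (φ ψ : ℝ → ℂ → ℂ) (τ σ : ℂ) (h k : ℂ → ℂ),
      IsNonEllipticSemigroup φ → IsNonEllipticSemigroup ψ →
      IsDenjoyWolff φ τ → IsDenjoyWolff ψ σ → IsKoenigs φ h → IsKoenigs ψ k →
      h '' ball 0 1 ⊆ k '' ball 0 1 →
      (∃ C : ℝ, ∀ t : ℝ, 0 ≤ t → orthogonalSpeed ψ σ t - C ≤ orthogonalSpeed φ τ t) ∧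
      (⊥ : EReal) < Filter.liminf
        (fun t : ℝ => ((orthogonalSpeed φ τ t - orthogonalSpeed ψ σ t : ℝ) : EReal)) atTop := by
  refine ⟨fun τ z hτ hz => existsUnique_nearest hτ hz, ?_⟩
  intro φ ψ τ σ h k hφ hψ hτ hσ hh hk hsub
  have S := hsemi hφ hτ hh
  have S' := hsemi hψ hσ hk
  -- the map `k⁻¹ ∘ h`
  have hex : ∀ z ∈ ball (0 : ℂ) 1, ∃ y ∈ ball (0 : ℂ) 1, k y = h z := by
    intro z hz
    exact hsub (mem_image_of_mem h hz)
  choose! g hg1 hg2 using hex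
  have hm : MapsTo (fun w => cay σ (g (yac τ w))) HH HH := by
    intro w hw
    exact cay_mem hσ.1 (hg1 _ (yac_mem hτ.1 hw))
  obtain ⟨C, hC, hmain⟩ := half_plane_main S S' (c := -I * (h 0 - k 0)) hm (by
    intro w hw
    have hz := yac_mem hτ.1 hw
    simp only [yac_cay hσ.1 (hg1 _ hz), hg2 _ hz]
    ring)
  have hbound : ∀ t : ℝ, 0 ≤ t →
      orthogonalSpeed ψ σ t - 1 / 2 * Real.log C ≤ orthogonalSpeed φ τ t := by
    intro t ht
    obtain ⟨e1, h1⟩ := orthogonalSpeed_eq hφ hτ hh ht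
    obtain ⟨e2, h2⟩ := orthogonalSpeed_eq hψ hσ hk ht
    have h3 := hmain t ht
    simp only [yac_one] at h3
    rw [e1, e2]
    have h4 : Real.log ‖cay σ (ψ t 0)‖ ≤ Real.log C + Real.log ‖cay τ (φ t 0)‖ := by
      rw [← Real.log_mul hC.ne' (by linarith)]
      exact Real.log_le_log (by linarith) h3
    linarith
  refine ⟨⟨_, hbound⟩, ?_⟩
  have h5 : ((-(1 / 2 * Real.log C) : ℝ) : EReal) ≤ Filter.liminf
      (fun t : ℝ => ((orthogonalSpeed φ τ t - orthogonalSpeed ψ σ t : ℝ) : EReal)) atTop := by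
    apply Filter.le_liminf_of_le
    · isBoundedDefault
    · filter_upwards [eventually_ge_atTop 0] with t ht
      rw [EReal.coe_le_coe_iff]
      have := hbound t ht
      linarith
  exact lt_of_lt_of_le (EReal.bot_lt_coe _) h5

end Pool.H1.MV.OrthogonalSpeed
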